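import Pool.Agent.R202.WS.G

/-!
# Biorthogonal systems whose dual parts have weak*-closed partial spans

For every infinite-dimensional normed space `E` with norm-separable dual there is a biorthogonal
system `(x n, f n)` with `[x n] = E`, `[f n] = E*` such that for every set `M` of indices the
norm-closed span `[f j : j ∈ M]` is the annihilator of `{x j : j ∉ M}`; in particular it is
`σ(E*, E)`-closed.
-/

namespace Pool.Agent.Results.MP_0543b0_an.StrongSystems

open Set TopologicalSpace Pool.Agent.R202.WS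

/-- **Positive answer to Q1.** -/
theorem result {𝕜 : Type*} [RCLike 𝕜] {E : Type*} [NormedAddCommGroup E] [NormedSpace 𝕜 E]
    [CompleteSpace E] [SeparableSpace (StrongDual 𝕜 E)] (hE : ¬ FiniteDimensional 𝕜 E) :
    ∃ (x : ℕ → E) (f : ℕ → StrongDual 𝕜 E),
      (∀ i j, f i (x j) = if i = j then 1 else 0) ∧
      (Submodule.span 𝕜 (range x)).topologicalClosure = ⊤ ∧
      (Submodule.span 𝕜 (range f)).topologicalClosure = ⊤ ∧
      (∀ n : ℕ → ℕ, StrictMono n → IsClosed (StrongDual.toWeakDual ''
        ((Submodule.span 𝕜 (range fun k => f (n k))).topologicalClosure :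
          Set (StrongDual 𝕜 E)))) ∧
      ∀ M : Set ℕ, ((Submodule.span 𝕜 (f '' M)).topologicalClosure : Set (StrongDual 𝕜 E)) =
        {φ | ∀ j, j ∉ M → φ (x j) = 0} := by
  classical
  obtain ⟨y, g, hb, hdy, hdg⟩ := exists_shrinking hE
  obtain ⟨D⟩ := exists_data y g hb hdy hdg
  obtain ⟨T, hT⟩ := exists_good D
  have hpos : ∀ k, 0 < D.c k := fun k => by
    have h1 := D.mn k
    have h2 := D.nm k
    have h3 := D.m_succ k
    omega
  have : Infinite (Σ k, Fin (D.c k)) :=
    Infinite.of_injective (fun k => (⟨k, ⟨0, hpos k⟩⟩ : Σ k, Fin (D.c k)))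
      (fun a b h => congrArg Sigma.fst h)
  obtain ⟨e⟩ : Nonempty (ℕ ≃ Σ k, Fin (D.c k)) := nonempty_equiv_of_countable
  set x : ℕ → E := fun n => T.x (e n) with hx
  set f : ℕ → StrongDual 𝕜 E := fun n => T.f (e n) with hf
  have hbio : ∀ i j, f i (x j) = if i = j then 1 else 0 := by
    intro i j
    rw [hf, hx]
    show T.f (e i) (T.x (e j)) = _
    rw [T.biorth hb]
    by_cases h : i = j
    · rw [if_pos h, if_pos (by rw [h])]
    · rw [if_neg h, if_neg (fun h' => h (e.injective h'))]
  have hsub : ∀ M : Set ℕ, ∀ φ : StrongDual 𝕜 E, (∀ j, j ∉ M → φ (x j) = 0) →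
      φ ∈ (Submodule.span 𝕜 (f '' M)).topologicalClosure := by
    intro M φ hφ
    have h1 := strong hT hb hdg (e '' M) φ (fun s hs => by
      have h2 := hφ (e.symm s) (fun h => hs ⟨_, h, e.apply_symm_apply s⟩)
      rw [hx] at h2
      simpa using h2)
    have h2 : T.f '' (e '' M) = f '' M := by
      rw [Set.image_image]
    rwa [h2] at h1
  have hclosed : ∀ M : Set ℕ, IsClosed (StrongDual.toWeakDual ''
      {φ : StrongDual 𝕜 E | ∀ j, j ∉ M → φ (x j) = 0}) := by
    intro M
    have h1 : StrongDual.toWeakDual '' {φ : StrongDual 𝕜 E | ∀ j, j ∉ M → φ (x j) = 0} =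
        ⋂ j, ⋂ (_ : j ∉ M), {φ : WeakDual 𝕜 E | φ (x j) = 0} := by
      ext φ
      simp only [Set.mem_image, Set.mem_ofPred_eq, Set.mem_iInter]
      constructor
      · rintro ⟨ψ, h, rfl⟩ j hj
        exact h j hj
      · intro h
        exact ⟨WeakDual.toStrongDual φ, fun j hj => h j hj, rfl⟩
    rw [h1]
    exact isClosed_iInter fun j => isClosed_iInter fun _ =>
      isClosed_eq (WeakDual.eval_continuous (x j)) continuous_const
  have hann : ∀ M : Set ℕ,
      ((Submodule.span 𝕜 (f '' M)).topologicalClosure : Set (StrongDual 𝕜 E)) =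
        {φ | ∀ j, j ∉ M → φ (x j) = 0} := by
    intro M
    refine Set.Subset.antisymm ?_ (fun φ hφ => hsub M φ hφ)
    rw [Submodule.topologicalClosure_coe]
    have hcl : IsClosed {φ : StrongDual 𝕜 E | ∀ j, j ∉ M → φ (x j) = 0} := by
      have h1 : {φ : StrongDual 𝕜 E | ∀ j, j ∉ M → φ (x j) = 0} =
          ⋂ j, ⋂ (_ : j ∉ M), {φ : StrongDual 𝕜 E | φ (x j) = 0} := by
        ext φ
        simp
      rw [h1]
      refine isClosed_iInter fun j => isClosed_iInter fun _ => isClosed_eq ?_ continuous_const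
      exact (NormedSpace.inclusionInDoubleDual 𝕜 E (x j)).continuous
    refine closure_minimal ?_ hcl
    intro φ hφ
    induction hφ using Submodule.span_induction with
    | mem φ h =>
      obtain ⟨i, hi, rfl⟩ := h
      intro j hj
      rw [hbio, if_neg]
      rintro rfl
      exact hj hi
    | zero => intro j _; rw [zero_apply]
    | add a b _ _ ha hb => intro j hj; rw [add_apply, ha j hj, hb j hj, add_zero]
    | smul c a _ ha => intro j hj; rw [smul_apply, ha j hj, smul_zero]
  refine ⟨x, f, hbio, ?_, ?_, ?_, hann⟩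
  · refine dense_crit _ fun φ hφ => ?_
    have h1 := hsub ∅ φ (fun j _ => hφ _ (Submodule.subset_span ⟨j, rfl⟩))
    rw [Set.image_empty, Submodule.span_empty] at h1
    have h2 : ((⊥ : Submodule 𝕜 (StrongDual 𝕜 E))).topologicalClosure = ⊥ := by
      rw [IsClosed.submodule_topologicalClosure_eq]
      exact isClosed_singleton
    rw [h2] at h1
    simpa using h1
  · rw [Submodule.eq_top_iff']
    intro φ
    have h1 := hsub Set.univ φ (fun j hj => absurd (Set.mem_univ j) hj)
    rwa [Set.image_univ] at h1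
  · intro n _
    have h1 : range (fun k => f (n k)) = f '' (range n) := by
      rw [← Set.range_comp]
      rfl
    rw [h1, hann]
    exact hclosed _

end Pool.Agent.Results.MP_0543b0_an.StrongSystems
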